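import Pool.Agent.TH764.BL.SspB

/-! Job BL-SSP, part C: the theorem, from Bombieri-Vinogradov. -/

namespace Pool.Agent.TH764.BL

open Finset Filter
open Pool.Agent.H442R2.KF (Er piN piAP)

lemma ev_log (n : ℕ) (c s : ℝ) (hc : 0 < c) (hs : 0 < s) :
    ∀ᶠ T : ℕ in atTop, Real.log T ^ n ≤ c * (T : ℝ) ^ s := by
  have h := (isLittleO_log_rpow_rpow_atTop (n : ℝ) hs).bound hc
  have h2 := tendsto_natCast_atTop_atTop.eventually (h.and (eventually_ge_atTop (1:ℝ)))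
  filter_upwards [h2] with T hT
  obtain ⟨hx, hx1⟩ := hT
  rw [Real.norm_eq_abs, Real.norm_eq_abs, Real.rpow_natCast,
    abs_of_nonneg (pow_nonneg (Real.log_nonneg hx1) _),
    abs_of_nonneg (Real.rpow_nonneg (by linarith) _)] at hx
  exact hx

lemma pi_ge : ∀ᶠ T : ℕ in atTop, (T : ℝ) / (2 * Real.log T) ≤ (piN T : ℝ) := by
  filter_upwards [ev_log 1 (1/10) 1 (by norm_num) (by norm_num), eventually_ge_atTop 100]
    with T h1 hT
  have hT' : (100:ℝ) ≤ T := by exact_mod_cast hT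
  rw [pow_one, Real.rpow_one] at h1
  have hlog : 0 < Real.log T := Real.log_pos (by linarith)
  have h2 := Chebyshev.psi_ge T
  have h3 := Chebyshev.psi_le_primeCounting_mul_log T
  have h4 : Real.log ((T:ℝ) + 1) ≤ 1 + (1/10) * T := by
    have : Real.log ((T:ℝ) + 1) ≤ Real.log (2 * T) :=
      Real.log_le_log (by linarith) (by linarith)
    rw [Real.log_mul (by norm_num) (by linarith)] at this
    have := Real.log_two_lt_d9
    linarith
  have h5 : (Nat.primeCounting T : ℝ) ≤ piN T := by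
    have : Nat.primeCounting T ≤ piN T := by
      unfold Nat.primeCounting Nat.primeCounting' piN
      rw [Nat.count_eq_card_filter_range]
      apply card_le_card
      intro p hp
      rw [mem_filter, mem_range] at hp
      rw [mem_filter, mem_Icc]
      have := hp.2.pos
      exact ⟨⟨by omega, by omega⟩, hp.2⟩
    exact_mod_cast this
  have h6 : (T:ℝ) / 2 ≤ (piN T : ℝ) * Real.log T := by
    have := Real.log_two_gt_d9
    have h7 : (Nat.primeCounting T : ℝ) * Real.log T ≤ (piN T : ℝ) * Real.log T :=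
      mul_le_mul_of_nonneg_right h5 hlog.le
    nlinarith
  rw [div_le_iff₀ (by linarith)]
  linarith

open Classical in
/-- the statement, from Bombieri-Vinogradov -/
theorem ssp_of_bv (hbv : ∀ (δ : ℝ), δ < 1 / 2 → ∀ (U : ℕ), ∃ C : ℝ, 0 < C ∧ ∀ N : ℕ, 3 ≤ N →
    ∀ a : ℕ → ℕ, (∀ d, 1 ≤ d → Nat.Coprime (a d) d) →
    ∑ d ∈ Icc 1 ⌊(N : ℝ) ^ δ⌋₊, |Er N d (a d)| ≤ C * (N / Real.log N ^ U)) :
    ∀ (θ ε : ℝ), 1 / 2 < θ → θ < 1 → 0 < ε → ∀ B : ℕ, ∃ T₀ : ℕ, ∀ T : ℕ, T₀ ≤ T →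
  ∀ q : ℕ, q.Prime → (q : ℝ) ≤ Real.log T ^ B →
  (T : ℝ) ^ (1 - ε) ≤ (((Icc 1 T).filter (fun t : ℕ => t.Prime ∧ t % 4 = 3 ∧ q ∣ t - 1 ∧
    ∀ p : ℕ, p.Prime → p ∣ t - 1 → (p : ℝ) ≤ (T : ℝ) ^ θ)).card : ℝ) := by
  intro θ ε hθ hθ1 hε B
  obtain ⟨η, hη⟩ : ∃ η : ℝ, η = (θ - 1 / 2) / 2 := ⟨_, rfl⟩
  have hη0 : 0 < η := by rw [hη]; linarith
  have hη1 : η < 1 / 4 := by rw [hη]; linarith
  obtain ⟨C, hC, hbv⟩ := hbv (1 / 2 - η / 2) (by linarith) (B + 2)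
  obtain ⟨CM, hCM, hmert⟩ := mertens_RR
  -- eventual conditions
  have hev := (((((ev_log B (1 / 4) (η / 2) (by norm_num) (by linarith)).and
    (ev_log (B + 1) (η / 32) ε (by positivity) hε)).and pi_ge).and
    (eventually_ge_atTop 3)).and
    ((Real.tendsto_log_atTop.comp tendsto_natCast_atTop_atTop).eventually
      (eventually_ge_atTop (max (2 * (CM + 1) / η) (64 * C / η)))))
  obtain ⟨T₀, hT₀⟩ := eventually_atTop.1 hev
  refine ⟨T₀, fun T hT q hq hqT => ?_⟩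
  obtain ⟨⟨⟨⟨e1, e2⟩, e3⟩, e4⟩, e5⟩ := hT₀ T hT
  have e5' : max (2 * (CM + 1) / η) (64 * C / η) ≤ Real.log T := e5
  have e6 : 2 * (CM + 1) / η ≤ Real.log T := (le_max_left _ _).trans e5'
  have e7 : 64 * C / η ≤ Real.log T := (le_max_right _ _).trans e5'
  have hT3 : (3:ℝ) ≤ T := by exact_mod_cast e4
  have hT0 : (0:ℝ) < T := by linarith
  obtain ⟨L, hL⟩ : ∃ L : ℝ, L = Real.log T := ⟨_, rfl⟩
  rw [← hL] at e1 e2 e3 e6 e7 hqT
  have hL0 : 0 < L := by rw [hL]; exact Real.log_pos (by linarith)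
  obtain ⟨D0, a0, hD0, hD0q, hco, hP, hcl⟩ := exists_D0 q hq
  -- parameters
  obtain ⟨Y, hY⟩ : ∃ Y : ℕ, Y = ⌊(T : ℝ) ^ (1 / 2 - η)⌋₊ := ⟨_, rfl⟩
  obtain ⟨M, hM⟩ : ∃ M : ℕ, M = ⌊(T : ℝ) ^ (1 / 2 - η / 2)⌋₊ := ⟨_, rfl⟩
  have hy1 : (1:ℝ) ≤ (T : ℝ) ^ (1 / 2 - η) := Real.one_le_rpow (by linarith) (by linarith)
  have hY1 : 1 ≤ Y := by rw [hY]; exact Nat.le_floor (by simpa using hy1)
  have hYle : (Y : ℝ) ≤ (T : ℝ) ^ (1 / 2 - η) := by
    rw [hY]; exact Nat.floor_le (by linarith)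
  have hYge : (T : ℝ) ^ (1 / 2 - η) / 2 ≤ Y := by
    have h1 := Nat.lt_floor_add_one ((T : ℝ) ^ (1 / 2 - η))
    rw [← hY] at h1
    have h2 : (1:ℝ) ≤ Y := by exact_mod_cast hY1
    linarith
  have hYT : (Y:ℝ) ≤ T := hYle.trans (by
    calc (T : ℝ) ^ (1 / 2 - η) ≤ (T : ℝ) ^ (1:ℝ) :=
          Real.rpow_le_rpow_of_exponent_le (by linarith) (by linarith)
      _ = T := Real.rpow_one _)
  have hYT' : Y ≤ T := by exact_mod_cast hYT
  have hYθ : (Y:ℝ) ≤ (T:ℝ) ^ θ := hYle.trans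
    (Real.rpow_le_rpow_of_exponent_le (by linarith) (by linarith))
  have hD0L : (D0 : ℝ) ≤ 4 * L ^ B := by
    have : (D0:ℝ) ≤ 4 * q := by exact_mod_cast hD0q
    linarith
  have hMD : D0 * Y ≤ M := by
    rw [hM]
    apply Nat.le_floor
    rw [Nat.cast_mul]
    calc (D0:ℝ) * Y ≤ (4 * L ^ B) * (T : ℝ) ^ (1 / 2 - η) :=
          mul_le_mul hD0L hYle (Nat.cast_nonneg _) (by positivity)
      _ ≤ (T:ℝ) ^ (η / 2) * (T : ℝ) ^ (1 / 2 - η) := by
          apply mul_le_mul_of_nonneg_right _ (by positivity)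
          linarith
      _ = (T : ℝ) ^ (1 / 2 - η / 2) := by
          rw [← Real.rpow_add hT0]; congr 1; ring
  have hMD0 : D0 ≤ M := (Nat.le_mul_of_pos_right D0 hY1).trans hMD
  have hE := hbv T e4 (aF D0 a0) (fun d _ => aF_coprime hco d)
  rw [← hM, ← hL] at hE
  obtain ⟨E, hEE⟩ : ∃ E : ℝ, E = C * (T / L ^ (B + 2)) := ⟨_, rfl⟩
  rw [← hEE] at hE
  have hE0 : 0 ≤ E := by rw [hEE]; positivity
  have haF : ∀ r ∈ RR Y D0, aF D0 a0 (D0 * r) ≡ a0 [MOD D0] ∧ aF D0 a0 (D0 * r) ≡ 1 [MOD r] := by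
    intro r hr
    unfold RR at hr
    rw [mem_filter] at hr
    exact aF_spec hD0 ((Nat.Prime.coprime_iff_not_dvd hr.2.1).2 hr.2.2).symm
  have hA := S1_le T Y D0 a0 θ (by omega) hθ1.le hYθ (aF D0 a0) haF
  have hB := S1_ge T Y D0 M E (aF D0 a0) hD0 hMD hE hYT'
  have hPT := PT_le T D0 a0 M E (aF D0 a0) hD0 hMD0 hE (by
    have := (aF_spec (a0 := a0) (r := 1) hD0 (Nat.coprime_one_right D0)).1
    rwa [mul_one] at this)
  have hMe := hmert Y D0 q hY1 hP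
  -- the count
  obtain ⟨G, hG⟩ : ∃ G : ℝ, G = (((PT T D0 a0).filter
        (fun t : ℕ => ∀ p : ℕ, p.Prime → p ∣ t - 1 → (p : ℝ) ≤ (T : ℝ) ^ θ)).card : ℝ) := ⟨_, rfl⟩
  rw [← hG, ← hL] at hA
  rw [← hL] at hB
  have hGle : G ≤ (((Icc 1 T).filter (fun t : ℕ => t.Prime ∧ t % 4 = 3 ∧ q ∣ t - 1 ∧
      ∀ p : ℕ, p.Prime → p ∣ t - 1 → (p : ℝ) ≤ (T : ℝ) ^ θ)).card : ℝ) := by
    rw [hG]
    have : ((PT T D0 a0).filter
        (fun t : ℕ => ∀ p : ℕ, p.Prime → p ∣ t - 1 → (p : ℝ) ≤ (T : ℝ) ^ θ)) ⊆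
        (Icc 1 T).filter (fun t : ℕ => t.Prime ∧ t % 4 = 3 ∧ q ∣ t - 1 ∧
      ∀ p : ℕ, p.Prime → p ∣ t - 1 → (p : ℝ) ≤ (T : ℝ) ^ θ) := by
      intro t ht
      rw [mem_filter] at ht
      unfold PT at ht
      rw [mem_filter, mem_Icc] at ht
      rw [mem_filter, mem_Icc]
      obtain ⟨h1, h2⟩ := hcl t ht.1.1.1 ht.1.2.2
      exact ⟨ht.1.1, ht.1.2.1, h1, h2, ht.2⟩
    exact_mod_cast card_le_card this
  refine le_trans ?_ hGle
  -- put together
  obtain ⟨V, hV⟩ : ∃ V : ℝ, V = (piN T : ℝ) / (D0.totient : ℝ) := ⟨_, rfl⟩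
  rw [← hV] at hB hPT
  have hφ0 : (0:ℝ) < D0.totient := by exact_mod_cast Nat.totient_pos.2 hD0
  have hφL : (D0.totient : ℝ) ≤ 4 * L ^ B := by
    have : (D0.totient : ℝ) ≤ D0 := by exact_mod_cast Nat.totient_le D0
    linarith
  have hVge : T / (8 * L ^ (B + 1)) ≤ V := by
    rw [hV, le_div_iff₀ hφ0]
    calc T / (8 * L ^ (B + 1)) * (D0.totient : ℝ) ≤ T / (8 * L ^ (B + 1)) * (4 * L ^ B) :=
          mul_le_mul_of_nonneg_left hφL (by positivity)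
      _ = T / (2 * L) := by
          rw [pow_succ]; field_simp; norm_num
      _ ≤ piN T := e3
  have hV0 : 0 ≤ V := by rw [hV]; positivity
  have hlogY : (1 / 2 - η) * L - 1 ≤ Real.log Y := by
    have h1 : Real.log ((T : ℝ) ^ (1 / 2 - η) / 2) ≤ Real.log Y :=
      Real.log_le_log (by positivity) hYge
    rw [Real.log_div (by positivity) (by norm_num), Real.log_rpow hT0, ← hL] at h1
    have := Real.log_two_lt_d9
    linarith
  have hηL : CM + 1 ≤ η / 2 * L := by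
    rw [div_le_iff₀ hη0] at e6
    linarith
  have hW : η / 2 * L + (1 - θ) * L ≤ ∑ r ∈ RR Y D0, Real.log r / ((r : ℝ) - 1) := by
    have h1 : (1 / 2 - η) * L - 1 - CM ≤ ∑ r ∈ RR Y D0, Real.log r / ((r : ℝ) - 1) := by
      linarith
    refine le_trans ?_ h1
    have h2 : (1 / 2 - η) * L = η * L + (1 - θ) * L := by rw [hη]; ring
    rw [h2]
    linarith
  have h10 : V * (η / 2 * L + (1 - θ) * L) ≤
      V * ∑ r ∈ RR Y D0, Real.log r / ((r : ℝ) - 1) := mul_le_mul_of_nonneg_left hW hV0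
  have h11 : (1 - θ) * L * (piAP T D0 a0 : ℝ) ≤ (1 - θ) * L * (V + E) :=
    mul_le_mul_of_nonneg_left hPT (mul_nonneg (by linarith) hL0.le)
  have h12 : V * (η / 2) * L - 2 * E * L ≤ G * L := by
    have h13 : (1 - θ) * L * E ≤ L * E := by
      have : (1 - θ) * L ≤ L := mul_le_of_le_one_left hL0.le (by linarith)
      exact mul_le_mul_of_nonneg_right this hE0
    have e10 : V * (η / 2 * L + (1 - θ) * L) = V * (η / 2) * L + (1 - θ) * L * V := by ring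
    have e11 : (1 - θ) * L * (V + E) = (1 - θ) * L * V + (1 - θ) * L * E := by ring
    have e12 : 2 * E * L = L * E + L * E := by ring
    have e13 : G * L = L * G := by ring
    rw [e10] at h10
    rw [e11] at h11
    rw [e12, e13]
    linarith
  have h14 : V * (η / 2) - 2 * E ≤ G := by
    have : (V * (η / 2) - 2 * E) * L ≤ G * L := by linarith
    exact le_of_mul_le_mul_right this hL0
  have h15 : T / L ^ (B + 1) * (η / 32) ≤ V * (η / 2) - 2 * E := by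
    have h16 : T / L ^ (B + 1) * (η / 16) ≤ V * (η / 2) := by
      have := mul_le_mul_of_nonneg_right hVge (by linarith : 0 ≤ η / 2)
      refine le_trans (le_of_eq ?_) this
      field_simp
      norm_num
    have h17 : 2 * E ≤ T / L ^ (B + 1) * (η / 32) := by
      rw [hEE]
      have h18 : 64 * C ≤ η * L := by
        rw [div_le_iff₀ hη0] at e7
        linarith
      have h19 : C * (T / L ^ (B + 2)) = (T / L ^ (B + 1)) * (C / L) := by
        rw [pow_succ L (B + 1)]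
        field_simp
      have h20 : 2 * (C / L) ≤ η / 32 := by
        rw [← mul_div_assoc, div_le_iff₀ hL0]
        linarith
      calc 2 * (C * (T / L ^ (B + 2))) = (T / L ^ (B + 1)) * (2 * (C / L)) := by
            rw [h19]; ring
        _ ≤ T / L ^ (B + 1) * (η / 32) := mul_le_mul_of_nonneg_left h20 (by positivity)
    linarith
  refine le_trans ?_ (h15.trans h14)
  have h21 : (T:ℝ) ^ (1 - ε) = T / (T:ℝ) ^ ε := by
    rw [Real.rpow_sub hT0, Real.rpow_one]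
  rw [h21, div_mul_eq_mul_div, div_le_div_iff₀ (by positivity) (by positivity)]
  calc (T:ℝ) * L ^ (B + 1) ≤ T * (η / 32 * (T:ℝ) ^ ε) := mul_le_mul_of_nonneg_left e2 hT0.le
    _ = T * (η / 32) * (T:ℝ) ^ ε := by ring

end Pool.Agent.TH764.BL
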