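import Pool.Agent.H442R2.KF.Defs
import Pool.Agent.Helper112.Lp.MertensLog

/-! Job BL-SSP, part A: the counting inequality for smooth shifted primes. -/

namespace Pool.Agent.TH764.BL

open Finset
open Pool.Agent.H442R2.KF (Er piN piAP)

/-- moduli `r`: primes up to `Y` not dividing `D0` -/
def RR (Y D0 : ℕ) : Finset ℕ := (Icc 1 Y).filter (fun r => r.Prime ∧ ¬ r ∣ D0)

/-- primes up to `T` in the class `a0` mod `D0` -/
def PT (T D0 a0 : ℕ) : Finset ℕ := (Icc 1 T).filter (fun p : ℕ => p.Prime ∧ p ≡ a0 [MOD D0])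

lemma card_PT (T D0 a0 : ℕ) : (PT T D0 a0).card = piAP T D0 a0 := rfl

lemma sum_log_le {n : ℕ} (hn : 0 < n) (S : Finset ℕ) (hS : ∀ r ∈ S, r.Prime ∧ r ∣ n) :
    ∑ r ∈ S, Real.log r ≤ Real.log n := by
  have h1 : ∏ r ∈ S, r ∣ n := by
    apply Finset.prod_primes_dvd n
    · intro r hr; exact (hS r hr).1.prime
    · intro r hr; exact (hS r hr).2
  have h2 : ∑ r ∈ S, Real.log r = Real.log ((∏ r ∈ S, r : ℕ) : ℝ) := by
    rw [Nat.cast_prod, Real.log_prod]
    intro r hr
    have := (hS r hr).1.pos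
    positivity
  rw [h2]
  apply Real.log_le_log
  · have : 0 < ∏ r ∈ S, r := Finset.prod_pos fun r hr => (hS r hr).1.pos
    exact_mod_cast this
  · exact_mod_cast Nat.le_of_dvd hn h1

lemma totient_mul_prime {D0 r : ℕ} (hr : r.Prime) (h : ¬ r ∣ D0) :
    ((D0 * r).totient : ℝ) = (D0.totient : ℝ) * (r - 1) := by
  have hc : Nat.Coprime D0 r := ((Nat.Prime.coprime_iff_not_dvd hr).2 h).symm
  rw [Nat.totient_mul hc, Nat.totient_prime hr, Nat.cast_mul, Nat.cast_sub hr.one_lt.le]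
  norm_num

open Classical in
/-- the sum over the class: upper bound -/
lemma S1_le (T Y D0 a0 : ℕ) (θ : ℝ) (hT : 2 ≤ T) (hθ1 : θ ≤ 1) (hYθ : (Y : ℝ) ≤ (T : ℝ) ^ θ)
    (a : ℕ → ℕ)
    (ha : ∀ r ∈ RR Y D0, a (D0 * r) ≡ a0 [MOD D0] ∧ a (D0 * r) ≡ 1 [MOD r]) :
    ∑ r ∈ RR Y D0, Real.log r * (piAP T (D0 * r) (a (D0 * r)) : ℝ) ≤
      Real.log T * (((PT T D0 a0).filter
        (fun t : ℕ => ∀ p : ℕ, p.Prime → p ∣ t - 1 → (p : ℝ) ≤ (T : ℝ) ^ θ)).card : ℝ) +
      (1 - θ) * Real.log T * (piAP T D0 a0 : ℝ) := by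
  classical
  have hT0 : (0:ℝ) < T := by
    have : (2:ℝ) ≤ T := by exact_mod_cast hT
    linarith
  have hlogT : 0 ≤ Real.log T := Real.log_natCast_nonneg T
  -- step 1: exchange
  have h1 : ∑ r ∈ RR Y D0, Real.log r * (piAP T (D0 * r) (a (D0 * r)) : ℝ) ≤
      ∑ t ∈ PT T D0 a0, ∑ r ∈ (RR Y D0).filter (fun r => r ∣ t - 1), Real.log r := by
    have h2 : ∀ r ∈ RR Y D0, Real.log r * (piAP T (D0 * r) (a (D0 * r)) : ℝ) ≤
        ∑ t ∈ PT T D0 a0, if r ∣ t - 1 then Real.log r else 0 := by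
      intro r hr
      rw [← Finset.sum_filter, Finset.sum_const, nsmul_eq_mul, mul_comm]
      apply mul_le_mul_of_nonneg_right _ (Real.log_natCast_nonneg r)
      have : piAP T (D0 * r) (a (D0 * r)) ≤ ((PT T D0 a0).filter (fun t => r ∣ t - 1)).card := by
        unfold piAP PT
        apply card_le_card
        intro t ht
        rw [mem_filter, mem_Icc] at ht
        rw [mem_filter, mem_filter, mem_Icc]
        obtain ⟨⟨h3, h4⟩, h5, h6⟩ := ht
        obtain ⟨h7, h8⟩ := ha r hr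
        refine ⟨⟨⟨h3, h4⟩, h5, ?_⟩, ?_⟩
        · exact (h6.of_mul_right r).trans h7
        · have h9 : t ≡ 1 [MOD r] := (h6.of_mul_left D0).trans h8
          exact (Nat.modEq_iff_dvd' h3).1 h9.symm
      exact_mod_cast this
    refine (sum_le_sum h2).trans (le_of_eq ?_)
    rw [Finset.sum_comm]
    apply sum_congr rfl
    intro t _
    rw [Finset.sum_filter]
  refine h1.trans ?_
  -- step 2: each inner sum
  set G : Finset ℕ := (PT T D0 a0).filter
        (fun t : ℕ => ∀ p : ℕ, p.Prime → p ∣ t - 1 → (p : ℝ) ≤ (T : ℝ) ^ θ) with hG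
  have hin : ∀ t ∈ PT T D0 a0, 0 < t - 1 ∧ t ≤ T := by
    intro t ht
    unfold PT at ht
    rw [mem_filter, mem_Icc] at ht
    have := ht.2.1.two_le
    omega
  have hall : ∀ t ∈ PT T D0 a0, ∑ r ∈ (RR Y D0).filter (fun r => r ∣ t - 1), Real.log r ≤
      Real.log T := by
    intro t ht
    obtain ⟨h4, h5⟩ := hin t ht
    refine (sum_log_le h4 _ ?_).trans ?_
    · intro r hr
      rw [mem_filter] at hr
      unfold RR at hr
      rw [mem_filter] at hr
      exact ⟨hr.1.2.1, hr.2⟩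
    · apply Real.log_le_log
      · exact_mod_cast h4
      · exact_mod_cast (by omega : t - 1 ≤ T)
  have hbad : ∀ t ∈ PT T D0 a0, t ∉ G →
      ∑ r ∈ (RR Y D0).filter (fun r => r ∣ t - 1), Real.log r ≤ (1 - θ) * Real.log T := by
    intro t ht htG
    obtain ⟨h4, h5⟩ := hin t ht
    rw [hG, mem_filter, not_and] at htG
    have h6 := htG ht
    push Not at h6
    obtain ⟨p, hp, hpt, hpT⟩ := h6
    have hpn : p ∉ (RR Y D0).filter (fun r => r ∣ t - 1) := by
      intro h
      rw [mem_filter] at h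
      unfold RR at h
      rw [mem_filter, mem_Icc] at h
      have : (p:ℝ) ≤ Y := by exact_mod_cast h.1.1.2
      linarith
    have h7 := sum_log_le h4 (insert p ((RR Y D0).filter (fun r => r ∣ t - 1))) (by
      intro r hr
      rw [mem_insert] at hr
      rcases hr with rfl | hr
      · exact ⟨hp, hpt⟩
      · rw [mem_filter] at hr
        unfold RR at hr
        rw [mem_filter] at hr
        exact ⟨hr.1.2.1, hr.2⟩)
    rw [Finset.sum_insert hpn] at h7
    have h8 : θ * Real.log T ≤ Real.log p := by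
      rw [← Real.log_rpow hT0]
      apply Real.log_le_log (Real.rpow_pos_of_pos hT0 _) hpT.le
    have h9 : Real.log ((t - 1 : ℕ) : ℝ) ≤ Real.log T := by
      apply Real.log_le_log
      · exact_mod_cast h4
      · exact_mod_cast (by omega : t - 1 ≤ T)
    linarith
  have hnn : 0 ≤ (1 - θ) * Real.log T := mul_nonneg (by linarith) hlogT
  have hsum : ∀ t ∈ PT T D0 a0, ∑ r ∈ (RR Y D0).filter (fun r => r ∣ t - 1), Real.log r ≤
      (if t ∈ G then Real.log T else 0) + (1 - θ) * Real.log T := by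
    intro t ht
    by_cases h : t ∈ G
    · rw [if_pos h]; linarith [hall t ht]
    · rw [if_neg h, zero_add]; exact hbad t ht h
  refine (sum_le_sum hsum).trans (le_of_eq ?_)
  rw [Finset.sum_add_distrib, Finset.sum_const, nsmul_eq_mul, card_PT, ← Finset.sum_filter,
    Finset.sum_const, nsmul_eq_mul]
  have hGf : (PT T D0 a0).filter (fun t => t ∈ G) = G := by
    rw [Finset.filter_mem_eq_inter]
    exact Finset.inter_eq_right.2 (Finset.filter_subset _ _)
  rw [hGf]
  ring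

end Pool.Agent.TH764.BL
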