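import Pool.Agent.TH764.BL.SspA

/-! Job BL-SSP, part B: lower bound, the residues, Mertens. -/

namespace Pool.Agent.TH764.BL

open Finset
open Pool.Agent.H442R2.KF (Er piN piAP)

/-- lower bound for the sum over the class -/
lemma S1_ge (T Y D0 M : ℕ) (E : ℝ) (a : ℕ → ℕ) (hD0 : 0 < D0) (hM : D0 * Y ≤ M)
    (hE : ∑ d ∈ Icc 1 M, |Er T d (a d)| ≤ E) (hYT : Y ≤ T) :
    ((piN T : ℝ) / (D0.totient : ℝ)) * ∑ r ∈ RR Y D0, Real.log r / ((r : ℝ) - 1) -
      Real.log T * E ≤
      ∑ r ∈ RR Y D0, Real.log r * (piAP T (D0 * r) (a (D0 * r)) : ℝ) := by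
  have hlogT : 0 ≤ Real.log T := Real.log_natCast_nonneg T
  have h1 : ∑ r ∈ RR Y D0, |Er T (D0 * r) (a (D0 * r))| ≤ E := by
    refine le_trans ?_ hE
    have h2 : ∑ r ∈ RR Y D0, |Er T (D0 * r) (a (D0 * r))| =
        ∑ d ∈ (RR Y D0).image (fun r => D0 * r), |Er T d (a d)| := by
      rw [Finset.sum_image]
      intro r _ s _ h
      exact Nat.eq_of_mul_eq_mul_left hD0 h
    rw [h2]
    apply Finset.sum_le_sum_of_subset_of_nonneg
    · intro d hd
      rw [mem_image] at hd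
      obtain ⟨r, hr, rfl⟩ := hd
      unfold RR at hr
      rw [mem_filter, mem_Icc] at hr
      rw [mem_Icc]
      constructor
      · exact Nat.mul_pos hD0 hr.1.1
      · exact (Nat.mul_le_mul_left _ hr.1.2).trans hM
    · intro d _ _
      exact abs_nonneg _
  have h3 : ∀ r ∈ RR Y D0, ((piN T : ℝ) / (D0.totient : ℝ)) * (Real.log r / ((r : ℝ) - 1)) -
      Real.log T * |Er T (D0 * r) (a (D0 * r))| ≤
      Real.log r * (piAP T (D0 * r) (a (D0 * r)) : ℝ) := by
    intro r hr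
    unfold RR at hr
    rw [mem_filter, mem_Icc] at hr
    have hr1 : (1:ℝ) < r := by exact_mod_cast hr.2.1.one_lt
    have htot := totient_mul_prime hr.2.1 hr.2.2
    have hφ : (0:ℝ) < D0.totient := by exact_mod_cast Nat.totient_pos.2 hD0
    have hEr : (piAP T (D0 * r) (a (D0 * r)) : ℝ) = Er T (D0 * r) (a (D0 * r)) +
        ((piN T : ℝ) / (D0.totient : ℝ)) / ((r : ℝ) - 1) := by
      unfold Er
      rw [htot]
      have : (r:ℝ) - 1 ≠ 0 := by linarith
      field_simp
      ring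
    rw [hEr]
    have hlr : 0 ≤ Real.log r := Real.log_natCast_nonneg r
    have hlrT : Real.log r ≤ Real.log T := by
      apply Real.log_le_log (by linarith)
      exact_mod_cast hr.1.2.trans hYT
    have h4 : -|Er T (D0 * r) (a (D0 * r))| ≤ Er T (D0 * r) (a (D0 * r)) := neg_abs_le _
    have h5 : Real.log r * |Er T (D0 * r) (a (D0 * r))| ≤
        Real.log T * |Er T (D0 * r) (a (D0 * r))| :=
      mul_le_mul_of_nonneg_right hlrT (abs_nonneg _)
    have h6 : Real.log r * (-|Er T (D0 * r) (a (D0 * r))|) ≤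
        Real.log r * Er T (D0 * r) (a (D0 * r)) := mul_le_mul_of_nonneg_left h4 hlr
    have h7 : Real.log r * (Er T (D0 * r) (a (D0 * r)) +
        ((piN T : ℝ) / (D0.totient : ℝ)) / ((r : ℝ) - 1)) =
        Real.log r * Er T (D0 * r) (a (D0 * r)) +
        ((piN T : ℝ) / (D0.totient : ℝ)) * (Real.log r / ((r : ℝ) - 1)) := by ring
    rw [h7]
    linarith
  have h8 := sum_le_sum h3
  rw [Finset.sum_sub_distrib, ← Finset.mul_sum, ← Finset.mul_sum] at h8
  have h9 : Real.log T * ∑ r ∈ RR Y D0, |Er T (D0 * r) (a (D0 * r))| ≤ Real.log T * E :=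
    mul_le_mul_of_nonneg_left h1 hlogT
  linarith

/-- the number of primes in the class -/
lemma PT_le (T D0 a0 M : ℕ) (E : ℝ) (a : ℕ → ℕ) (hD0 : 0 < D0) (hM : D0 ≤ M)
    (hE : ∑ d ∈ Icc 1 M, |Er T d (a d)| ≤ E) (ha : a D0 ≡ a0 [MOD D0]) :
    (piAP T D0 a0 : ℝ) ≤ (piN T : ℝ) / (D0.totient : ℝ) + E := by
  have h1 : |Er T D0 (a D0)| ≤ E := by
    refine le_trans ?_ hE
    exact Finset.single_le_sum (f := fun d => |Er T d (a d)|) (fun d _ => abs_nonneg _)
      (mem_Icc.2 ⟨hD0, hM⟩)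
  have h2 : piAP T D0 (a D0) = piAP T D0 a0 := by
    unfold piAP
    congr 1
    apply filter_congr
    intro p _
    constructor
    · rintro ⟨h3, h4⟩; exact ⟨h3, h4.trans ha⟩
    · rintro ⟨h3, h4⟩; exact ⟨h3, h4.trans ha.symm⟩
  unfold Er at h1
  rw [h2] at h1
  have := (abs_le.1 h1).2
  linarith

/-- the residues -/
def aF (D0 a0 : ℕ) (d : ℕ) : ℕ :=
  if h : D0 ∣ d ∧ Nat.Coprime D0 (d / D0) then (Nat.chineseRemainder h.2 a0 1 : ℕ) else 1

lemma aF_coprime {D0 a0 : ℕ} (hco : Nat.Coprime a0 D0) (d : ℕ) :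
    Nat.Coprime (aF D0 a0 d) d := by
  unfold aF
  split_ifs with h
  · obtain ⟨h1, h2⟩ := (Nat.chineseRemainder h.2 a0 1).2
    set k : ℕ := (Nat.chineseRemainder h.2 a0 1 : ℕ) with hk
    have h3 : Nat.Coprime k D0 := by
      unfold Nat.Coprime
      rw [h1.gcd_eq]
      exact hco
    have h4 : Nat.Coprime k (d / D0) := by
      unfold Nat.Coprime
      rw [h2.gcd_eq]
      simp
    have h5 : d = D0 * (d / D0) := (Nat.mul_div_cancel' h.1).symm
    rw [h5]
    exact Nat.Coprime.mul_right h3 h4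
  · exact Nat.coprime_one_left d

lemma aF_spec {D0 a0 r : ℕ} (hD0 : 0 < D0) (hr : Nat.Coprime D0 r) :
    aF D0 a0 (D0 * r) ≡ a0 [MOD D0] ∧ aF D0 a0 (D0 * r) ≡ 1 [MOD r] := by
  have h0 : D0 * r / D0 = r := Nat.mul_div_cancel_left r hD0
  have h : D0 ∣ D0 * r ∧ Nat.Coprime D0 (D0 * r / D0) := by
    rw [h0]; exact ⟨dvd_mul_right _ _, hr⟩
  unfold aF
  rw [dif_pos h]
  obtain ⟨h1, h2⟩ := (Nat.chineseRemainder h.2 a0 1).2
  refine ⟨h1, ?_⟩
  have key : ∀ (x m : ℕ), m = r → x ≡ 1 [MOD m] → x ≡ 1 [MOD r] := by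
    rintro x _ rfl h; exact h
  exact key _ _ h0 h2

/-- the modulus and the class -/
lemma exists_D0 (q : ℕ) (hq : q.Prime) : ∃ D0 a0 : ℕ, 0 < D0 ∧ D0 ≤ 4 * q ∧
    Nat.Coprime a0 D0 ∧ (∀ r : ℕ, r.Prime → r ∣ D0 → r = 2 ∨ r = q) ∧
    ∀ t : ℕ, 1 ≤ t → t ≡ a0 [MOD D0] → t % 4 = 3 ∧ q ∣ t - 1 := by
  rcases hq.eq_two_or_odd' with h2 | hodd
  · subst h2
    refine ⟨4, 3, by norm_num, by norm_num, by norm_num, ?_, ?_⟩
    · intro r hr h
      left
      have : r ∣ 2 ^ 2 := by simpa using h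
      exact (Nat.prime_dvd_prime_iff_eq hr Nat.prime_two).1 (hr.dvd_of_dvd_pow this)
    · intro t ht h
      have h1 : t % 4 = 3 := by
        have := h
        unfold Nat.ModEq at this
        omega
      refine ⟨h1, ?_⟩
      omega
  · have hc : Nat.Coprime 4 q := by
      have : Nat.Coprime (2 ^ 2) q := Nat.Coprime.pow_left 2 (Nat.coprime_two_left.2 hodd)
      simpa using this
    obtain ⟨h1, h2⟩ := (Nat.chineseRemainder hc 3 1).2
    set k : ℕ := (Nat.chineseRemainder hc 3 1 : ℕ) with hk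
    refine ⟨4 * q, k, by have := hq.pos; positivity, le_rfl, ?_, ?_, ?_⟩
    · have h3 : Nat.Coprime k 4 := by
        unfold Nat.Coprime
        rw [h1.gcd_eq]
        norm_num
      have h4 : Nat.Coprime k q := by
        unfold Nat.Coprime
        rw [h2.gcd_eq]
        simp
      exact Nat.Coprime.mul_right h3 h4
    · intro r hr h
      rcases (hr.dvd_mul).1 h with h | h
      · left
        have : r ∣ 2 ^ 2 := by simpa using h
        exact (Nat.prime_dvd_prime_iff_eq hr Nat.prime_two).1 (hr.dvd_of_dvd_pow this)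
      · right
        exact (Nat.prime_dvd_prime_iff_eq hr hq).1 h
    · intro t ht h
      have h3 : t ≡ 3 [MOD 4] := (h.of_mul_right q).trans h1
      have h4 : t ≡ 1 [MOD q] := (h.of_mul_left 4).trans h2
      refine ⟨?_, (Nat.modEq_iff_dvd' ht).1 h4.symm⟩
      unfold Nat.ModEq at h3
      omega

/-- Mertens, without the primes dividing `D0` -/
lemma mertens_RR : ∃ C : ℝ, 0 < C ∧ ∀ (Y D0 q : ℕ), 1 ≤ Y →
    (∀ r : ℕ, r.Prime → r ∣ D0 → r = 2 ∨ r = q) → 
    Real.log Y - C ≤ ∑ r ∈ RR Y D0, Real.log r / ((r : ℝ) - 1) := by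
  obtain ⟨C, hC, h⟩ := Pool.Agent.Helper112.LP.mertens_log
  refine ⟨C + 2, by linarith, fun Y D0 q hY hP => ?_⟩
  have h1 := (abs_le.1 (h Y hY)).1
  have h2 : ∑ r ∈ (Icc 1 Y).filter Nat.Prime, Real.log r / r ≤
      ∑ r ∈ RR Y D0, Real.log r / ((r : ℝ) - 1) + 2 := by
    have h3 : (Icc 1 Y).filter Nat.Prime ⊆ RR Y D0 ∪ {2, q} := by
      intro r hr
      rw [mem_filter] at hr
      rw [mem_union]
      by_cases hd : r ∣ D0
      · right
        rcases hP r hr.2 hd with h | h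
        · simp [h]
        · simp [h]
      · left
        unfold RR
        rw [mem_filter]
        exact ⟨hr.1, hr.2, hd⟩
    have hnn : ∀ r : ℕ, 0 ≤ Real.log r / r := fun r =>
      div_nonneg (Real.log_natCast_nonneg r) (Nat.cast_nonneg r)
    have hle1 : ∀ r : ℕ, Real.log r / r ≤ 1 := by
      intro r
      rcases Nat.eq_zero_or_pos r with h | h
      · subst h; simp
      · have : (0:ℝ) < r := by exact_mod_cast h
        rw [div_le_one this]
        exact Real.log_le_self this.le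
    calc ∑ r ∈ (Icc 1 Y).filter Nat.Prime, Real.log r / r
        ≤ ∑ r ∈ RR Y D0 ∪ {2, q}, Real.log r / r :=
          Finset.sum_le_sum_of_subset_of_nonneg h3 fun r _ _ => hnn r
      _ ≤ ∑ r ∈ RR Y D0, Real.log r / r + ∑ r ∈ ({2, q} : Finset ℕ), Real.log r / r := by
          have := Finset.sum_union_inter (s₁ := RR Y D0) (s₂ := ({2, q} : Finset ℕ))
            (f := fun r : ℕ => Real.log r / r)
          have h4 : 0 ≤ ∑ r ∈ RR Y D0 ∩ {2, q}, Real.log (r : ℝ) / r :=
            Finset.sum_nonneg fun r _ => hnn r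
          linarith
      _ ≤ ∑ r ∈ RR Y D0, Real.log r / ((r : ℝ) - 1) + 2 := by
          apply add_le_add
          · apply sum_le_sum
            intro r hr
            unfold RR at hr
            rw [mem_filter] at hr
            have hr1 : (1:ℝ) < r := by exact_mod_cast hr.2.1.one_lt
            apply div_le_div_of_nonneg_left (Real.log_natCast_nonneg r) (by linarith)
            linarith
          · refine (Finset.sum_le_card_nsmul _ _ 1 fun r _ => hle1 r).trans ?_
            have : ({2, q} : Finset ℕ).card ≤ 2 := Finset.card_le_two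
            rw [nsmul_eq_mul, mul_one]
            exact_mod_cast this
  linarith

end Pool.Agent.TH764.BL
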